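import Mathlib

namespace Pool.Agent.Results.MP_e3e9ef_lc.Linear

open Finset

def bit (b : Bool) : ℝ := if b then 1 else 0

def IsRep {n : ℕ} (f : (Fin n → Bool) → Bool) (c : Finset (Fin n) → ℝ) : Prop :=
  ∀ x, bit (f x) = ∑ S, c S * ∏ i ∈ S, bit (x i)

open Classical in
noncomputable def spar {n : ℕ} (c : Finset (Fin n) → ℝ) : ℕ := (univ.filter fun S => c S ≠ 0).card

open Classical in
noncomputable def pat {n : ℕ} (c : Finset (Fin n) → ℝ) : ℕ :=
  (univ.image fun x : Fin n → Bool =>
    fun S : {S : Finset (Fin n) // c S ≠ 0} => ∏ i ∈ S.1, bit (x i)).card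

def mon (m t : ℕ) (j : Fin m) : Finset (Fin (m + m)) :=
  insert (Fin.natAdd m j) ((univ.filter fun i : Fin m => i.val < t).map (Fin.castAddEmb m))

lemma nat_ne (m : ℕ) (i j : Fin m) : Fin.natAdd m j ≠ Fin.castAdd m i := by
  intro h; have := congrArg Fin.val h; simp at this; omega

lemma prod_mon (m t : ℕ) (j : Fin m) (x : Fin (m + m) → Bool) :
    ∏ i ∈ mon m t j, bit (x i) = bit (x (Fin.natAdd m j)) *
      ∏ i ∈ univ.filter (fun i : Fin m => i.val < t), bit (x (Fin.castAdd m i)) := by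
  rw [mon, prod_insert, prod_map]
  · rfl
  · simp only [mem_map, not_exists, not_and]
    exact fun i _ h => nat_ne m i j h.symm

lemma prod_bit {ι : Type} (s : Finset ι) (y : ι → Bool) [DecidablePred fun i => y i = true] :
    ∏ i ∈ s, bit (y i) = if ∀ i ∈ s, y i = true then 1 else 0 := by
  split_ifs with h
  · exact prod_eq_one fun i hi => by simp [bit, h i hi]
  · push Not at h
    obtain ⟨i, hi, h⟩ := h
    exact prod_eq_zero hi (by simp [bit, h])

noncomputable def co (m : ℕ) (S : Finset (Fin (m + m))) : ℝ :=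
  ∑ j : Fin m, ((if S = mon m j j then 1 else 0) - (if S = mon m (j + 1) j then 1 else 0))

def P (m : ℕ) (x : Fin (m + m) → Bool) (j : Fin m) : Prop :=
  (∀ i : Fin m, i < j → x (Fin.castAdd m i) = true) ∧ x (Fin.castAdd m j) = false ∧
    x (Fin.natAdd m j) = true

open Classical in
lemma rep (m : ℕ) : IsRep (fun x => decide (∃ j, P m x j)) (co m) := by
  intro x
  have h1 : ∑ S, co m S * ∏ i ∈ S, bit (x i) =
      ∑ j : Fin m, (∏ i ∈ mon m j j, bit (x i) - ∏ i ∈ mon m (j + 1) j, bit (x i)) := by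
    simp only [co, sum_mul]
    rw [sum_comm]
    refine sum_congr rfl fun j _ => ?_
    simp [sub_mul, sum_sub_distrib]
  have h2 : ∀ j : Fin m, ∏ i ∈ mon m j j, bit (x i) - ∏ i ∈ mon m (j + 1) j, bit (x i) =
      if P m x j then 1 else 0 := by
    intro j
    have e : univ.filter (fun i : Fin m => i.val < j + 1) =
        insert j (univ.filter fun i : Fin m => i.val < j) := by
      ext i; simp [Fin.ext_iff]; omega
    rw [prod_mon, prod_mon, e, prod_insert (by simp), prod_bit]
    unfold P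
    cases x (Fin.castAdd m j) <;> cases x (Fin.natAdd m j) <;> simp [bit]
  rw [h1, sum_congr rfl fun j _ => h2 j]
  beta_reduce
  by_cases h : ∃ j, P m x j
  · rw [decide_eq_true h]
    obtain ⟨j, hj⟩ := h
    rw [sum_eq_single j, if_pos hj]
    · rfl
    · intro k _ hk
      rw [if_neg]
      intro hk'
      rcases lt_or_gt_of_ne hk with h | h
      · have := hj.1 k h; rw [hk'.2.1] at this; simp at this
      · have := hk'.1 j h; rw [hj.2.1] at this; simp at this
    · simp
  · rw [decide_eq_false h, sum_eq_zero fun j _ => if_neg fun hj => h ⟨j, hj⟩]; rfl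

lemma spar_le (m : ℕ) : spar (co m) ≤ 2 * m := by
  classical
  unfold spar
  refine (card_le_card (t := (univ.image fun j : Fin m => mon m j j) ∪
    (univ.image fun j : Fin m => mon m (j + 1) j)) ?_).trans ((card_union_le _ _).trans ?_)
  · intro S hS
    by_contra h
    simp only [mem_union, mem_image, mem_univ, true_and, not_or, not_exists] at h
    refine (mem_filter.1 hS).2 (sum_eq_zero fun j _ => ?_)
    rw [if_neg fun e => h.1 j e.symm, if_neg fun e => h.2 j e.symm, sub_self]
  · refine (Nat.add_le_add card_image_le card_image_le).trans ?_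
    simp; omega

lemma co_ne (m : ℕ) (j : Fin m) : co m (mon m (j + 1) j) ≠ 0 := by
  have key : ∀ (t t' : ℕ) (k : Fin m), mon m t j = mon m t' k → j = k := by
    intro t t' k h
    have : Fin.natAdd m j ∈ mon m t' k := h ▸ mem_insert_self _ _
    rcases mem_insert.1 this with h | h
    · exact Fin.ext (by simpa using congrArg Fin.val h)
    · obtain ⟨i, -, hi⟩ := mem_map.1 h
      exact absurd hi.symm (nat_ne m i j)
  unfold co
  rw [sum_eq_single j, if_neg, if_pos rfl]
  · norm_num
  · intro h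
    have : Fin.castAdd m j ∈ mon m j j :=
      h ▸ mem_insert_of_mem (mem_map.2 ⟨j, by simp, rfl⟩)
    rcases mem_insert.1 this with h | h
    · exact nat_ne m j j h.symm
    · obtain ⟨i, hi, e⟩ := mem_map.1 h
      have : i = j := (Fin.castAddEmb m).injective e
      simp [this] at hi
  · intro k _ hk
    rw [if_neg fun e => hk (key _ _ _ e).symm, if_neg fun e => hk (key _ _ _ e).symm, sub_self]
  · simp

lemma pat_ge (m : ℕ) : 2 ^ m ≤ pat (co m) := by
  classical
  unfold pat
  have := card_le_card_of_injOn (s := (univ : Finset (Fin m → Bool)))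
    (t := univ.image fun x : Fin (m + m) → Bool =>
      fun S : {S : Finset (Fin (m + m)) // co m S ≠ 0} => ∏ i ∈ S.1, bit (x i))
    (fun y => fun S => ∏ i ∈ S.1, bit (Fin.addCases (motive := fun _ => Bool) (fun _ => true) y i))
    (fun y _ => mem_image.2 ⟨_, mem_univ _, rfl⟩) (fun y _ y' _ h => by
      ext j
      have := congrFun h ⟨_, co_ne m j⟩
      simp only [prod_mon, Fin.addCases_left, Fin.addCases_right] at this
      revert this
      cases y j <;> cases y' j <;> simp [bit])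
  simpa using this

lemma pat_le {n : ℕ} (c : Finset (Fin n) → ℝ) : pat c ≤ 2 ^ spar c := by
  classical
  unfold pat spar
  refine (card_le_card (t := Fintype.piFinset fun _ => ({0, 1} : Finset ℝ)) ?_).trans ?_
  · intro p hp
    obtain ⟨x, -, rfl⟩ := mem_image.1 hp
    rw [Fintype.mem_piFinset]
    intro S
    rw [prod_bit]; split_ifs <;> simp
  · rw [Fintype.card_piFinset]
    simp [Fintype.card_subtype]

theorem result :
    (∀ m : ℕ, ∃ (n : ℕ) (f : (Fin n → Bool) → Bool) (c : Finset (Fin n) → ℝ),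
      IsRep f c ∧ spar c ≤ 2 * m ∧ 2 ^ m ≤ pat c) ∧
    ∀ δ : ℝ, 0 < δ → ∀ C : ℝ, 0 < C →
      ∃ (n : ℕ) (f : (Fin n → Bool) → Bool) (c : Finset (Fin n) → ℝ),
        IsRep f c ∧ (2 : ℝ) ^ (C * (spar c : ℝ) ^ (1 - δ)) < pat c := by
  refine ⟨fun m => ⟨_, _, _, rep m, spar_le m, pat_ge m⟩, fun δ hδ C hC => ?_⟩
  obtain ⟨m, hm1, hm⟩ : ∃ m : ℕ, 1 ≤ m ∧ 2 * C < (m : ℝ) ^ δ :=
    ((Filter.eventually_ge_atTop 1).and (((tendsto_rpow_atTop hδ).comp
      tendsto_natCast_atTop_atTop).eventually_gt_atTop (2 * C))).exists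
  refine ⟨_, _, _, rep m, ?_⟩
  have h1 : m ≤ spar (co m) :=
    (Nat.pow_le_pow_iff_right (by norm_num)).1 ((pat_ge m).trans (pat_le _))
  have h2 : (spar (co m) : ℝ) ≤ 2 * m := by exact_mod_cast spar_le m
  have h3 : (m : ℝ) ≤ spar (co m) := by exact_mod_cast h1
  have h4 : (0 : ℝ) < m := by exact_mod_cast hm1
  have h5 : (m : ℝ) ^ δ ≤ (spar (co m) : ℝ) ^ δ := Real.rpow_le_rpow h4.le h3 hδ.le
  have h6 : C * (spar (co m) : ℝ) ^ (1 - δ) < m := by
    rw [Real.rpow_sub (by linarith), Real.rpow_one, ← mul_div_assoc,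
      div_lt_iff₀ (by linarith)]
    nlinarith
  calc (2 : ℝ) ^ (C * (spar (co m) : ℝ) ^ (1 - δ)) < (2 : ℝ) ^ (m : ℝ) :=
        Real.rpow_lt_rpow_of_exponent_lt (by norm_num) h6
    _ ≤ _ := by rw [Real.rpow_natCast]; exact_mod_cast pat_ge m

end Pool.Agent.Results.MP_e3e9ef_lc.Linear
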